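import Pool.Agent.R105.HM.Upper

/-!
# Cliques of pairwise non-harmonious patterns in random ordered hypermatchings

The number of cliques with `k` edges on `r k` vertices is at most exponential in `k`: a clique is
determined by the 0-1 matrices of the pairs (first vertex, `j`-th vertex), and, for pairwise
non-harmonious patterns, these matrices avoid the permutation matrix of a large grid (Ramsey's
theorem, cuts of the patterns and the fact that a 4-cycle is not an interval graph). The theorem of
Marcus and Tardos and Klazar's reduction bound the number of such matrices. The rest is a first
moment bound.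
-/

set_option autoImplicit false

open Filter
open scoped Topology

namespace Pool.Agent.Results.MP_d24be6_pr.UpperBound

open Pool.Agent.R105.HM

/-- For every finite set `PP` of pairwise non-harmonious patterns the largest `PP`-clique in a
uniformly random ordered `r`-matching of size `n` has at most `C n^{1/r}` edges a.a.s. -/
theorem result (r : ℕ) (hr : 2 ≤ r) (PP : Finset (List Bool))
    (hPP : ∀ P ∈ PP, ∀ Q ∈ PP, ¬ Harmonious P Q) :
    ∃ C : ℝ, 0 < C ∧ Tendsto
      (fun n : ℕ => prob r n (fun M => (z PP M : ℝ) ≤ C * (n : ℝ) ^ (1 / (r : ℝ))))
      atTop (𝓝 1) :=
  upper hPP hr

end Pool.Agent.Results.MP_d24be6_pr.UpperBound
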